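import Mathlib

/-!
# MP_2e038a_an : the periodic shadowing property of bilateral weighted shifts on `ℓ_p` and `c_0`
-/

set_option autoImplicit false

open Filter Topology Set

namespace Pool.Agent.Results.MP_2e038a_an.PeriodicShadowing

/-- A space of sequences indexed by `ℤ`: its elements and its norm. -/
structure Sp (𝕜 : Type) where
  /-- the sequence belongs to the space -/
  Mem : (ℤ → 𝕜) → Prop
  /-- the norm -/
  N : (ℤ → 𝕜) → ℝ

/-- `ℓ_p(ℤ)` -/
noncomputable def ellp (𝕜 : Type) [RCLike 𝕜] (p : ℝ) : Sp 𝕜 :=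
  ⟨fun f => Summable fun n => ‖f n‖ ^ p, fun f => (∑' n, ‖f n‖ ^ p) ^ (1 / p)⟩

/-- `c_0(ℤ)` -/
noncomputable def cZero (𝕜 : Type) [RCLike 𝕜] : Sp 𝕜 :=
  ⟨fun f => Tendsto f cofinite (𝓝 0), fun f => ⨆ n, ‖f n‖⟩

/-- The bilateral weighted backward shift `B_w`. -/
def Bw {𝕜 : Type} [RCLike 𝕜] (w : ℤ → 𝕜) (x : ℤ → 𝕜) : ℤ → 𝕜 := fun n => w (n + 1) * x (n + 1)

/-- The periodic shadowing property of `B_w` on the space `S`: for every `ε > 0` there is `δ > 0`
such that every periodic `δ`-pseudotrajectory `(x_j)` is `ε`-shadowed by the two-sided orbit `(z_j)`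
of a periodic point. -/
def PSP {𝕜 : Type} [RCLike 𝕜] (S : Sp 𝕜) (w : ℤ → 𝕜) : Prop :=
  ∀ ε : ℝ, 0 < ε → ∃ δ : ℝ, 0 < δ ∧ ∀ x : ℤ → ℤ → 𝕜, (∀ j, S.Mem (x j)) →
    (∀ j, S.N (Bw w (x j) - x (j + 1)) < δ) → (∃ q : ℕ, 1 ≤ q ∧ ∀ j, x (j + q) = x j) →
    ∃ z : ℤ → ℤ → 𝕜, (∀ j, S.Mem (z j)) ∧ (∀ j, z (j + 1) = Bw w (z j)) ∧
      (∃ q : ℕ, 1 ≤ q ∧ ∀ j, z (j + q) = z j) ∧ ∀ j, S.N (x j - z j) < ε

/-! ### The properties of the spaces -/

structure Good {𝕜 : Type} [RCLike 𝕜] (S : Sp 𝕜) : Prop where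
  add : ∀ {f g}, S.Mem f → S.Mem g → S.Mem (f + g) ∧ S.N (f + g) ≤ S.N f + S.N g
  solid : ∀ {f g} {c : ℝ}, 0 ≤ c → S.Mem g → (∀ n, ‖f n‖ ≤ c * ‖g n‖) → S.Mem f ∧ S.N f ≤ c * S.N g
  shift : ∀ {f} (k : ℤ), S.Mem f → S.Mem (fun n => f (n + k)) ∧ S.N (fun n => f (n + k)) ≤ S.N f
  single : ∀ (n : ℤ) (a : 𝕜), S.Mem (Pi.single n a) ∧ S.N (Pi.single n a) ≤ ‖a‖
  coord : ∀ {f}, S.Mem f → ∀ n, ‖f n‖ ≤ S.N f
  series : ∀ {F : ℕ → ℤ → 𝕜} {C θ : ℝ}, 0 ≤ θ → θ < 1 → (∀ k, S.Mem (F k)) →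
    (∀ k, S.N (F k) ≤ C * θ ^ k) →
    S.Mem (fun n => ∑' k, F k n) ∧ S.N (fun n => ∑' k, F k n) ≤ C / (1 - θ)
  tozero : ∀ {f}, S.Mem f → Tendsto f cofinite (𝓝 0)

section spaces
variable {𝕜 : Type} [RCLike 𝕜]

lemma single_norm (n : ℤ) (a : 𝕜) (m : ℤ) : ‖(Pi.single n a : ℤ → 𝕜) m‖ = if m = n then ‖a‖ else 0 := by
  by_cases h : m = n
  · subst h; simp
  · simp [h]

lemma good_cZero : Good (cZero 𝕜) where
  add {f g} hf hg := by
    have hf' : Tendsto f cofinite (𝓝 0) := hf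
    have hg' : Tendsto g cofinite (𝓝 0) := hg
    have h0 := hf'.add hg'
    rw [add_zero] at h0
    refine ⟨h0, ?_⟩
    refine ciSup_le fun n => (norm_add_le _ _).trans ?_
    exact add_le_add (le_ciSup (hf'.norm.bddAbove_range_of_cofinite) n)
      (le_ciSup (hg'.norm.bddAbove_range_of_cofinite) n)
  solid {f g c} hc hg h := by
    have hg' : Tendsto g cofinite (𝓝 0) := hg
    refine ⟨?_, ?_⟩
    · refine squeeze_zero_norm h ?_
      simpa using (hg'.norm).const_mul c
    · refine ciSup_le fun n => (h n).trans ?_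
      exact mul_le_mul_of_nonneg_left (le_ciSup (hg'.norm.bddAbove_range_of_cofinite) n) hc
  shift {f} k hf := by
    have hf' : Tendsto f cofinite (𝓝 0) := hf
    refine ⟨hf'.comp (add_left_injective k).tendsto_cofinite, ?_⟩
    exact ciSup_le fun n => le_ciSup (hf'.norm.bddAbove_range_of_cofinite) (n + k)
  single n a := by
    refine ⟨?_, ?_⟩
    · refine tendsto_nhds_of_eventually_eq ?_
      rw [Filter.eventually_cofinite]
      refine (Set.finite_singleton n).subset fun m hm => ?_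
      by_contra h
      exact hm (by simp [show m ≠ n from h])
    · refine ciSup_le fun m => ?_
      rw [single_norm]
      split_ifs
      · exact le_rfl
      · exact norm_nonneg _
  coord {f} hf n := by
    have hf' : Tendsto f cofinite (𝓝 0) := hf
    exact le_ciSup (hf'.norm.bddAbove_range_of_cofinite) n
  series {F C θ} h0 h1 hF hN := by
    have hb : ∀ k n, ‖F k n‖ ≤ C * θ ^ k := fun k n =>
      (le_ciSup ((show Tendsto (F k) cofinite (𝓝 0) from hF k).norm.bddAbove_range_of_cofinite)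
        n).trans (hN k)
    have hs : Summable fun k => C * θ ^ k := (summable_geometric_of_lt_one h0 h1).mul_left C
    refine ⟨?_, ?_⟩
    · have := tendsto_tsum_of_dominated_convergence (𝓕 := cofinite) (f := fun n k => F k n)
        (g := fun _ => 0) hs (fun k => hF k) (Eventually.of_forall fun n k => hb k n)
      rw [tsum_zero] at this
      exact this
    · refine ciSup_le fun n => ?_
      have := tsum_of_norm_bounded ((hasSum_geometric_of_lt_one h0 h1).mul_left C)
        (fun k => hb k n)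
      simpa [div_eq_mul_inv] using this
  tozero hf := hf

lemma good_ellp {p : ℝ} (hp : 1 ≤ p) : Good (ellp 𝕜 p) where
  add {f g} hf hg := by
    have hp0 : 0 < p := by linarith
    have hf' : Summable fun n => ‖f n‖ ^ p := hf
    have hg' : Summable fun n => ‖g n‖ ^ p := hg
    have h := Real.Lp_add_le_tsum_of_nonneg hp (fun n => norm_nonneg (f n))
      (fun n => norm_nonneg (g n)) hf' hg'
    have hle : ∀ n, ‖(f + g) n‖ ^ p ≤ (‖f n‖ + ‖g n‖) ^ p := fun n =>
      Real.rpow_le_rpow (norm_nonneg _) (norm_add_le _ _) hp0.le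
    have hs : Summable fun n => ‖(f + g) n‖ ^ p :=
      Summable.of_nonneg_of_le (fun n => by positivity) hle h.1
    refine ⟨hs, le_trans ?_ h.2⟩
    exact Real.rpow_le_rpow (tsum_nonneg fun n => by positivity)
      (hs.tsum_le_tsum hle h.1) (by positivity)
  solid {f g c} hc hg h := by
    have hp0 : 0 < p := by linarith
    have hg' : Summable fun n => ‖g n‖ ^ p := hg
    have hle : ∀ n, ‖f n‖ ^ p ≤ c ^ p * ‖g n‖ ^ p := fun n => by
      rw [← Real.mul_rpow hc (norm_nonneg _)]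
      exact Real.rpow_le_rpow (norm_nonneg _) (h n) hp0.le
    have hs : Summable fun n => ‖f n‖ ^ p :=
      Summable.of_nonneg_of_le (fun n => by positivity) hle (hg'.mul_left _)
    refine ⟨hs, ?_⟩
    change (∑' n, ‖f n‖ ^ p) ^ (1 / p) ≤ c * (∑' n, ‖g n‖ ^ p) ^ (1 / p)
    have e : c * (∑' n, ‖g n‖ ^ p) ^ (1 / p) = (c ^ p * ∑' n, ‖g n‖ ^ p) ^ (1 / p) := by
      rw [Real.mul_rpow (by positivity) (tsum_nonneg fun n => by positivity), ← Real.rpow_mul hc,
        mul_one_div_cancel hp0.ne', Real.rpow_one]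
    rw [e]
    refine Real.rpow_le_rpow (tsum_nonneg fun n => by positivity) ?_ (by positivity)
    rw [← tsum_mul_left]
    exact hs.tsum_le_tsum hle (hg'.mul_left _)
  shift {f} k hf := by
    have hf' : Summable fun n => ‖f n‖ ^ p := hf
    refine ⟨(Equiv.addRight k).summable_iff.2 hf', le_of_eq ?_⟩
    change (∑' n, ‖f (n + k)‖ ^ p) ^ (1 / p) = (∑' n, ‖f n‖ ^ p) ^ (1 / p)
    congr 1
    exact (Equiv.addRight k).tsum_eq fun n => ‖f n‖ ^ p
  single n a := by
    have hp0 : 0 < p := by linarith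
    have h0 : ∀ m, m ≠ n → ‖(Pi.single n a : ℤ → 𝕜) m‖ ^ p = 0 := fun m hm => by
      rw [single_norm, if_neg hm, Real.zero_rpow hp0.ne']
    refine ⟨summable_of_ne_finset_zero (s := {n}) fun m hm => h0 m (by simpa using hm), le_of_eq ?_⟩
    change (∑' m, ‖(Pi.single n a : ℤ → 𝕜) m‖ ^ p) ^ (1 / p) = ‖a‖
    rw [tsum_eq_single n h0, single_norm, if_pos rfl, ← Real.rpow_mul (norm_nonneg _),
      mul_one_div_cancel hp0.ne', Real.rpow_one]
  coord {f} hf n := by
    have hp0 : 0 < p := by linarith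
    have hf' : Summable fun n => ‖f n‖ ^ p := hf
    have h1 : ‖f n‖ ^ p ≤ ∑' n, ‖f n‖ ^ p := hf'.le_tsum n fun m _ => by positivity
    calc ‖f n‖ = (‖f n‖ ^ p) ^ (1 / p) := by
          rw [← Real.rpow_mul (norm_nonneg _), mul_one_div_cancel hp0.ne', Real.rpow_one]
      _ ≤ _ := Real.rpow_le_rpow (by positivity) h1 (by positivity)
  series {F C θ} h0 h1 hF hN := by
    have hp0 : 0 < p := by linarith
    have hcoord : ∀ k n, ‖F k n‖ ≤ C * θ ^ k := fun k n => by
      have hf' : Summable fun n => ‖F k n‖ ^ p := hF k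
      have h1 : ‖F k n‖ ^ p ≤ ∑' n, ‖F k n‖ ^ p := hf'.le_tsum n fun m _ => by positivity
      calc ‖F k n‖ = (‖F k n‖ ^ p) ^ (1 / p) := by
            rw [← Real.rpow_mul (norm_nonneg _), mul_one_div_cancel hp0.ne', Real.rpow_one]
        _ ≤ (∑' n, ‖F k n‖ ^ p) ^ (1 / p) := Real.rpow_le_rpow (by positivity) h1 (by positivity)
        _ ≤ C * θ ^ k := hN k
    have hC : 0 ≤ C := by
      have := (norm_nonneg _).trans (hcoord 0 0)
      simpa using this
    have hgeo : Summable fun k => C * θ ^ k := (summable_geometric_of_lt_one h0 h1).mul_left C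
    have hsum : ∀ n, Summable fun k => F k n := fun n => Summable.of_norm_bounded hgeo
      fun k => hcoord k n
    have hpart : ∀ K : ℕ, (Summable fun n => ‖∑ k ∈ Finset.range K, F k n‖ ^ p) ∧
        (∑' n, ‖∑ k ∈ Finset.range K, F k n‖ ^ p) ^ (1 / p) ≤ ∑ k ∈ Finset.range K, C * θ ^ k := by
      intro K
      induction K with
      | zero =>
        simp only [Finset.range_zero, Finset.sum_empty, norm_zero]
        rw [Real.zero_rpow hp0.ne']
        refine ⟨summable_zero, ?_⟩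
        rw [tsum_zero, Real.zero_rpow (by positivity)]
      | succ K ih =>
        have h := Real.Lp_add_le_tsum_of_nonneg hp
          (fun n => norm_nonneg (∑ k ∈ Finset.range K, F k n))
          (fun n => norm_nonneg (F K n)) ih.1 (hF K)
        have hle : ∀ n, ‖∑ k ∈ Finset.range (K + 1), F k n‖ ^ p ≤
            (‖∑ k ∈ Finset.range K, F k n‖ + ‖F K n‖) ^ p := fun n => by
          rw [Finset.sum_range_succ]
          exact Real.rpow_le_rpow (norm_nonneg _) (norm_add_le _ _) hp0.le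
        have hs : Summable fun n => ‖∑ k ∈ Finset.range (K + 1), F k n‖ ^ p :=
          Summable.of_nonneg_of_le (fun n => by positivity) hle h.1
        refine ⟨hs, ?_⟩
        rw [Finset.sum_range_succ (fun k => C * θ ^ k)]
        refine le_trans ?_ (h.2.trans (add_le_add ih.2 (hN K)))
        exact Real.rpow_le_rpow (tsum_nonneg fun n => by positivity)
          (hs.tsum_le_tsum hle h.1) (by positivity)
    have hpb : ∀ K : ℕ, ∑ k ∈ Finset.range K, C * θ ^ k ≤ C / (1 - θ) := fun K => by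
      have := hgeo.sum_le_tsum (Finset.range K) fun k _ => by positivity
      rw [tsum_mul_left, tsum_geometric_of_lt_one h0 h1] at this
      simpa [div_eq_mul_inv] using this
    have hCθ : 0 ≤ C / (1 - θ) := div_nonneg hC (by linarith)
    have hfin : ∀ s : Finset ℤ, ∑ n ∈ s, ‖∑' k, F k n‖ ^ p ≤ (C / (1 - θ)) ^ p := by
      intro s
      have ht : Tendsto (fun K : ℕ => ∑ n ∈ s, ‖∑ k ∈ Finset.range K, F k n‖ ^ p) atTop
          (𝓝 (∑ n ∈ s, ‖∑' k, F k n‖ ^ p)) := by
        refine tendsto_finsetSum _ fun n _ => ?_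
        exact (((hsum n).hasSum.tendsto_sum_nat).norm).rpow_const (Or.inr hp0.le)
      refine le_of_tendsto' ht fun K => ?_
      have h3 := (hpart K).1.sum_le_tsum s fun n _ => by positivity
      refine h3.trans ?_
      have h4 := (hpart K).2.trans (hpb K)
      have h5 := Real.rpow_le_rpow (by positivity) h4 hp0.le
      rw [← Real.rpow_mul (tsum_nonneg fun n => by positivity), one_div_mul_cancel hp0.ne',
        Real.rpow_one] at h5
      exact h5
    have hs := summable_of_sum_le (f := fun n => ‖∑' k, F k n‖ ^ p) (fun n => by positivity) hfin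
    refine ⟨hs, ?_⟩
    change (∑' n, ‖∑' k, F k n‖ ^ p) ^ (1 / p) ≤ C / (1 - θ)
    have h6 : ∑' n, ‖∑' k, F k n‖ ^ p ≤ (C / (1 - θ)) ^ p := hs.tsum_le_of_sum_le hfin
    have h7 := Real.rpow_le_rpow (tsum_nonneg fun n => by positivity) h6
      (show 0 ≤ 1 / p by positivity)
    rwa [← Real.rpow_mul hCθ, mul_one_div_cancel hp0.ne', Real.rpow_one] at h7
  tozero {f} hf := by
    have hp0 : 0 < p := by linarith
    have hf' : Summable fun n => ‖f n‖ ^ p := hf
    have h1 := hf'.tendsto_cofinite_zero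
    have h2 := h1.rpow_const (p := 1 / p) (Or.inr (by positivity))
    rw [Real.zero_rpow (by positivity)] at h2
    refine tendsto_zero_iff_norm_tendsto_zero.2 (h2.congr fun n => ?_)
    rw [← Real.rpow_mul (norm_nonneg _), mul_one_div_cancel hp0.ne', Real.rpow_one]

end spaces

/-! ### Consequences of the axioms -/

section good
variable {𝕜 : Type} [RCLike 𝕜] {S : Sp 𝕜}

lemma Good.sub (hS : Good S) {f g : ℤ → 𝕜} (hf : S.Mem f) (hg : S.Mem g) :
    S.Mem (f - g) ∧ S.N (f - g) ≤ S.N f + S.N g := by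
  have h1 := hS.solid (f := -g) (c := 1) zero_le_one hg (fun n => by simp)
  have h2 := hS.add hf h1.1
  rw [← sub_eq_add_neg] at h2
  exact ⟨h2.1, h2.2.trans (by linarith [h1.2])⟩

lemma Good.one (hS : Good S) {f : ℤ → 𝕜} {b : ℝ} (hb : ∀ n, ‖f n‖ ≤ b)
    (h : ∀ n m, f n ≠ 0 → f m ≠ 0 → n = m) : S.Mem f ∧ S.N f ≤ b := by
  by_cases hf : ∃ n, f n ≠ 0
  · obtain ⟨n, hn⟩ := hf
    have e : f = Pi.single n (f n) := by
      funext m
      by_cases hm : m = n
      · subst hm; simp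
      · rw [Pi.single_eq_of_ne hm]
        by_contra h0
        exact hm (h m n h0 hn)
    have h1 := hS.single n (f n)
    rw [← e] at h1
    exact ⟨h1.1, h1.2.trans (hb n)⟩
  · push Not at hf
    have e : f = Pi.single 0 0 := by
      funext m
      rw [hf m]; simp
    have h1 := hS.single 0 0
    rw [← e] at h1
    refine ⟨h1.1, h1.2.trans ?_⟩
    have := hb 0
    rw [hf 0] at this
    simpa using this

end good

/-! ### Two-sided recursions -/

lemma exists_R {𝕜 : Type} [Field 𝕜] (w : ℤ → 𝕜) (hw : ∀ n, w n ≠ 0) :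
    ∃ R : ℤ → 𝕜, (∀ n, R n ≠ 0) ∧ ∀ n, R n = w (n + 1) * R (n + 1) := by
  refine ⟨fun n => (∏ i ∈ Finset.Ioc 0 n, (w i)⁻¹) * ∏ i ∈ Finset.Ioc n 0, w i, ?_, ?_⟩
  · intro n
    exact mul_ne_zero (Finset.prod_ne_zero_iff.2 fun i _ => inv_ne_zero (hw i))
      (Finset.prod_ne_zero_iff.2 fun i _ => hw i)
  · intro n
    rcases le_or_gt 0 n with h | h
    · have h1 : Finset.Ioc 0 (n + 1) = insert (n + 1) (Finset.Ioc 0 n) := by
        ext i; simp only [Finset.mem_Ioc, Finset.mem_insert]; omega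
      have h2 : Finset.Ioc n 0 = ∅ := by
        ext i; simp only [Finset.mem_Ioc, Finset.notMem_empty, iff_false]; omega
      have h3 : Finset.Ioc (n + 1) 0 = ∅ := by
        ext i; simp only [Finset.mem_Ioc, Finset.notMem_empty, iff_false]; omega
      simp only [h1, h2, h3, Finset.prod_empty]
      rw [Finset.prod_insert (by simp)]
      have := hw (n + 1)
      field_simp
    · have h1 : Finset.Ioc n 0 = insert (n + 1) (Finset.Ioc (n + 1) 0) := by
        ext i; simp only [Finset.mem_Ioc, Finset.mem_insert]; omega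
      have h2 : Finset.Ioc 0 n = ∅ := by
        ext i; simp only [Finset.mem_Ioc, Finset.notMem_empty, iff_false]; omega
      have h3 : Finset.Ioc 0 (n + 1) = ∅ := by
        ext i; simp only [Finset.mem_Ioc, Finset.notMem_empty, iff_false]; omega
      simp only [h1, h2, h3, Finset.prod_empty]
      rw [Finset.prod_insert (by simp)]
      ring

lemma exists_Phi (φ : ℤ → ℝ) : ∃ Φ : ℤ → ℝ, ∀ n, Φ (n + 1) = Φ n + φ n := by
  refine ⟨fun n => (∑ i ∈ Finset.Ico 0 n, φ i) - ∑ i ∈ Finset.Ico n 0, φ i, ?_⟩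
  intro n
  rcases le_or_gt 0 n with h | h
  · have h1 : Finset.Ico 0 (n + 1) = insert n (Finset.Ico 0 n) := by
      ext i; simp only [Finset.mem_Ico, Finset.mem_insert]; omega
    have h2 : Finset.Ico n 0 = ∅ := by
      ext i; simp only [Finset.mem_Ico, Finset.notMem_empty, iff_false]; omega
    have h3 : Finset.Ico (n + 1) 0 = ∅ := by
      ext i; simp only [Finset.mem_Ico, Finset.notMem_empty, iff_false]; omega
    simp only [h1, h2, h3, Finset.sum_empty]
    rw [Finset.sum_insert (by simp)]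
    ring
  · have h1 : Finset.Ico n 0 = insert n (Finset.Ico (n + 1) 0) := by
      ext i; simp only [Finset.mem_Ico, Finset.mem_insert]; omega
    have h2 : Finset.Ico 0 n = ∅ := by
      ext i; simp only [Finset.mem_Ico, Finset.notMem_empty, iff_false]; omega
    have h3 : Finset.Ico 0 (n + 1) = ∅ := by
      ext i; simp only [Finset.mem_Ico, Finset.notMem_empty, iff_false]; omega
    simp only [h1, h2, h3, Finset.sum_empty]
    rw [Finset.sum_insert (by simp)]
    ring

/-! ### Decay -/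

/-- the universal decay lemma -/
lemma decay {V ψ : ℕ → ℝ} {C₀ : ℝ} (hC : 0 < C₀) (M : ℕ) (hV : ∀ i < M, V i = ψ (i + 1) + V (i + 1))
    (hM : V M = 0) (hle : ∀ i ≤ M, V i ≤ C₀ * ψ i) (h0 : 0 ≤ ψ 0) :
    ψ M ≤ (C₀ + 1) * (C₀ / (C₀ + 1)) ^ M * ψ 0 := by
  set θ := C₀ / (C₀ + 1) with hθ
  have hθ0 : 0 < θ := by positivity
  have hstep : ∀ i < M, V (i + 1) ≤ θ * V i := by
    intro i hi
    have h1 := hV i hi
    have h2 := hle (i + 1) hi
    rw [hθ, div_mul_eq_mul_div, le_div_iff₀ (by linarith)]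
    nlinarith
  have hpow : ∀ i ≤ M, V i ≤ θ ^ i * V 0 := by
    intro i
    induction i with
    | zero => intro _; simp
    | succ i ih =>
      intro hi
      calc V (i + 1) ≤ θ * V i := hstep i hi
        _ ≤ θ * (θ ^ i * V 0) := mul_le_mul_of_nonneg_left (ih (by omega)) hθ0.le
        _ = θ ^ (i + 1) * V 0 := by ring
  rcases Nat.eq_zero_or_pos M with h | h
  · subst h
    rw [pow_zero, mul_one]
    nlinarith
  · obtain ⟨N, rfl⟩ : ∃ N, M = N + 1 := ⟨M - 1, by omega⟩
    have h1 : ψ (N + 1) = V N := by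
      have := hV N (by omega)
      rw [hM, add_zero] at this
      exact this.symm
    rw [h1]
    calc V N ≤ θ ^ N * V 0 := hpow N (by omega)
      _ ≤ θ ^ N * (C₀ * ψ 0) := mul_le_mul_of_nonneg_left (hle 0 (by omega)) (by positivity)
      _ = (C₀ + 1) * θ ^ (N + 1) * ψ 0 := by
        have : (C₀ + 1) * θ = C₀ := by rw [hθ]; field_simp
        calc θ ^ N * (C₀ * ψ 0) = θ ^ N * (((C₀ + 1) * θ) * ψ 0) := by rw [this]
          _ = _ := by ring

/-- the two possible behaviours of `φ n = 1 / ‖R n‖` -/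
def Dich (φ : ℤ → ℝ) : Prop :=
  ∃ C θ : ℝ, 0 ≤ C ∧ 0 ≤ θ ∧ θ < 1 ∧
    ((∃ U : Set ℤ, (∀ n ∈ U, ∀ k : ℕ, φ (n + k) ≤ C * θ ^ k * φ n) ∧
      (∀ n ∉ U, ∀ k : ℕ, φ (n - k) ≤ C * θ ^ k * φ n)) ∨
    (∃ a : ℤ, (∀ n, a ≤ n → ∀ k : ℕ, φ n ≤ C * θ ^ k * φ (n + k)) ∧
      (∀ n ≤ a, ∀ k : ℕ, φ n ≤ C * θ ^ k * φ (n - k))))

section dich
variable {φ Φ : ℤ → ℝ} (hφ : ∀ n, 0 < φ n) (hΦ : ∀ n, Φ (n + 1) = Φ n + φ n)
include hφ hΦ

lemma Phi_mono : Monotone Φ := monotone_int_of_le_succ fun n => by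
  rw [hΦ n]; linarith [hφ n]

omit hφ in
lemma Phi_ge {b : ℝ} (i : ℤ) (K : ℕ) (h : ∀ n, i ≤ n → n < i + K → b ≤ φ n) :
    K * b ≤ Φ (i + K) - Φ i := by
  induction K with
  | zero => simp
  | succ K ih =>
    have h1 := ih fun n h1 h2 => h n h1 (by push_cast; omega)
    have h2 := h (i + K) (by omega) (by push_cast; omega)
    have h3 := hΦ (i + K)
    push_cast
    rw [← add_assoc, h3]
    linarith

/-- the ridge case -/
lemma dich_ridge {C₀ : ℝ} (hC : 0 < C₀) (hinf : Tendsto φ cofinite atTop)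
    (H : ∀ k m, k ≤ m → Φ m - Φ k ≤ C₀ * (φ m + φ k)) : Dich φ := by
  have hmono := Phi_mono hφ hΦ
  obtain ⟨a, ha⟩ := hinf.exists_forall_le
  refine ⟨2 * C₀ + 1 + 1, (2 * C₀ + 1) / (2 * C₀ + 1 + 1), by positivity, by positivity,
    by rw [div_lt_one (by positivity)]; linarith, Or.inr ⟨a, ?_, ?_⟩⟩
  · intro n hn k
    have := decay (V := fun i => Φ (n + k - i) - Φ n) (ψ := fun i => φ (n + k - i))
      (C₀ := 2 * C₀ + 1) (by linarith) k ?_ ?_ ?_ (hφ _).le
    · simpa using this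
    · intro i hi
      have h1 := hΦ (n + k - (i + 1 : ℕ))
      have e : n + (k : ℤ) - ((i + 1 : ℕ) : ℤ) + 1 = n + k - i := by push_cast; ring
      rw [e] at h1
      change Φ (n + k - i) - Φ n = φ (n + k - (i + 1 : ℕ)) + (Φ (n + k - (i + 1 : ℕ)) - Φ n)
      rw [h1]; ring
    · simp
    · intro i hi
      have h1 := H a (n + k - i) (by omega)
      have h2 := ha (n + k - i)
      have h3 := hmono hn
      nlinarith [hφ (n + k - i)]
  · intro n hn k
    have := decay (V := fun i => Φ (n + 1) - Φ (n - k + i + 1)) (ψ := fun i => φ (n - k + i))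
      (C₀ := 2 * C₀ + 1) (by linarith) k ?_ ?_ ?_ (hφ _).le
    · simpa using this
    · intro i hi
      have h1 := hΦ (n - k + (i + 1 : ℕ))
      change Φ (n + 1) - Φ (n - k + i + 1) =
        φ (n - k + (i + 1 : ℕ)) + (Φ (n + 1) - Φ (n - k + (i + 1 : ℕ) + 1))
      rw [h1]
      have e : n - (k : ℤ) + ((i + 1 : ℕ) : ℤ) = n - k + i + 1 := by push_cast; ring
      rw [e]; ring
    · simp
    · intro i hi
      have h1 := H (n - k + i) a (by omega)
      have h2 := ha (n - k + i)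
      have h3 : Φ (n + 1) ≤ Φ (a + 1) := hmono (by omega)
      have h4 := hΦ a
      have h5 := hΦ (n - k + i)
      have h6 := hφ (n - k + i)
      nlinarith

/-- the two-wing case -/
lemma dich_wings {C₀ D : ℝ} (hC : 1 ≤ C₀) (hD1 : 1 ≤ D) (hD : ∀ n, φ (n + 1) ≤ D * φ n)
    (H : ∀ k l m, k ≤ l → l ≤ m → min (Φ m - Φ l) (Φ l - Φ k) ≤ C₀ * φ l) : Dich φ := by
  have hmono := Phi_mono hφ hΦ
  set Rs : ℤ → Prop := fun l => ∀ m, l ≤ m → Φ m - Φ l ≤ C₀ * φ l with hRs
  set Ls : ℤ → Prop := fun l => ∀ k, k ≤ l → Φ l - Φ k ≤ C₀ * φ l with hLs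
  have hcover : ∀ l, ¬ Ls l → Rs l := by
    intro l hl m hm
    by_contra hcon
    push Not at hcon
    apply hl
    intro k hk
    by_contra hcon2
    push Not at hcon2
    exact absurd (H k l m hk hm) (not_le.2 (lt_min hcon hcon2))
  have hstepR : ∀ i i', Rs i → i ≤ i' → φ i' ≤ C₀ * φ i := by
    intro i i' hi hii
    have h1 := hi (i' + 1) (by omega)
    rw [hΦ i'] at h1
    linarith [hmono hii]
  have hstepL : ∀ i n, Ls n → i < n → φ i ≤ C₀ * φ n := by
    intro i n hn hin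
    have h1 := hn i hin.le
    have h2 : Φ (i + 1) ≤ Φ n := hmono (by omega)
    rw [hΦ i] at h2
    linarith
  have hgap : ∀ i i', Rs i → Ls i' → i < i' → ((i' - i : ℤ) : ℝ) ≤ C₀ ^ 3 := by
    intro i i' hi hi' hlt
    obtain ⟨K, hK⟩ : ∃ K : ℕ, i' = i + K := ⟨(i' - i).toNat, by omega⟩
    subst hK
    have h1 : ∀ n, i ≤ n → n < i + K → φ (i + K) / C₀ ^ 2 ≤ φ n := by
      intro n hn1 hn2
      have hpos := hφ n
      rw [div_le_iff₀ (by positivity)]
      by_cases hR : Rs n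
      · have h2 := hstepR n (i + K) hR hn2.le
        nlinarith [mul_le_mul_of_nonneg_left hC (mul_nonneg (by linarith : (0:ℝ) ≤ C₀) hpos.le)]
      · have hL : Ls n := by
          by_contra hcon
          exact hR (hcover n hcon)
        have hne : i < n := lt_of_le_of_ne hn1 (fun h => hR (h ▸ hi))
        have h2 := hstepL i n hL hne
        have h3 := hstepR i (i + K) hi (by omega)
        nlinarith [mul_le_mul_of_nonneg_left h2 (by linarith : (0:ℝ) ≤ C₀)]
    have h2 := Phi_ge hΦ i K h1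
    have h3 := hi' i (by omega)
    have h4 := hφ (i + K)
    have h5 : (K : ℝ) * (φ (i + K) / C₀ ^ 2) ≤ C₀ * φ (i + K) := h2.trans h3
    have h6 : (K : ℝ) * φ (i + K) ≤ C₀ ^ 3 * φ (i + K) := by
      have h7 := mul_le_mul_of_nonneg_right h5 (by positivity : (0:ℝ) ≤ C₀ ^ 2)
      have e : (K : ℝ) * (φ (i + K) / C₀ ^ 2) * C₀ ^ 2 = K * φ (i + K) := by field_simp
      rw [e] at h7
      linarith [h7]
    have h8 := le_of_mul_le_mul_right h6 h4
    simpa using h8
  set K : ℕ := ⌈C₀ ^ 3⌉₊ with hKdef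
  have hK : C₀ ^ 3 ≤ K := Nat.le_ceil _
  set θ := C₀ / (C₀ + 1) with hθ
  have hθ0 : 0 < θ := by positivity
  have hθ1 : θ < 1 := by rw [hθ, div_lt_one (by positivity)]; linarith
  have hdecR : ∀ n, (∀ m, n ≤ m → Rs m) → ∀ M : ℕ, φ (n + M) ≤ (C₀ + 1) * θ ^ M * φ n := by
    intro n hn M
    have := decay (V := fun i => Φ (n + M + 1) - Φ (n + i + 1)) (ψ := fun i => φ (n + i))
      (C₀ := C₀) (by linarith) M ?_ ?_ ?_ (hφ _).le
    · simpa using this
    · intro i hi
      have h1 := hΦ (n + (i + 1 : ℕ))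
      change Φ (n + M + 1) - Φ (n + i + 1) =
        φ (n + (i + 1 : ℕ)) + (Φ (n + M + 1) - Φ (n + (i + 1 : ℕ) + 1))
      rw [h1]
      have e : n + ((i + 1 : ℕ) : ℤ) = n + i + 1 := by push_cast; ring
      rw [e]; ring
    · simp
    · intro i hi
      have h1 := hn (n + i) (by omega) (n + M + 1) (by omega)
      have h2 : Φ (n + i) ≤ Φ (n + i + 1) := hmono (by omega)
      linarith
  have hdecL : ∀ n, (∀ m, m ≤ n → Ls m) → ∀ M : ℕ, φ (n - M) ≤ (C₀ + 1) * θ ^ M * φ n := by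
    intro n hn M
    have := decay (V := fun i => Φ (n - i) - Φ (n - M)) (ψ := fun i => φ (n - i))
      (C₀ := C₀) (by linarith) M ?_ ?_ ?_ (hφ _).le
    · simpa using this
    · intro i hi
      have h1 := hΦ (n - (i + 1 : ℕ))
      have e : n - ((i + 1 : ℕ) : ℤ) + 1 = n - i := by push_cast; ring
      rw [e] at h1
      change Φ (n - i) - Φ (n - M) = φ (n - (i + 1 : ℕ)) + (Φ (n - (i + 1 : ℕ)) - Φ (n - M))
      rw [h1]; ring
    · simp
    · intro i hi
      exact hn (n - i) (by omega) (n - M) (by omega)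
  have hDpow : ∀ n (M : ℕ), φ (n + M) ≤ D ^ M * φ n := by
    intro n M
    induction M with
    | zero => simp
    | succ M ih =>
      have h1 := hD (n + M)
      have e : n + ((M + 1 : ℕ) : ℤ) = n + M + 1 := by push_cast; ring
      rw [e]
      calc φ (n + M + 1) ≤ D * φ (n + M) := h1
        _ ≤ D * (D ^ M * φ n) := mul_le_mul_of_nonneg_left ih (by linarith)
        _ = D ^ (M + 1) * φ n := by ring
  have hDK : (1:ℝ) ≤ D ^ (K + 1) := one_le_pow₀ hD1
  have hθK : (1:ℝ) ≤ 1 / θ ^ (K + 1) := by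
    rw [le_div_iff₀ (by positivity), one_mul]
    exact pow_le_one₀ hθ0.le hθ1.le
  refine ⟨(C₀ + 1) * D ^ (K + 1) * (1 / θ ^ (K + 1)), θ, by positivity, hθ0.le, hθ1,
    Or.inl ⟨{n | ∃ i ≤ n, Rs i}, ?_, ?_⟩⟩
  · rintro n ⟨i, hin, hi⟩ M
    have hall : ∀ m, n + (K + 1 : ℕ) ≤ m → Rs m := by
      intro m hm
      apply hcover
      intro hL
      have h1 := hgap i m hi hL (by push_cast at hm; omega)
      have h2 : ((m - i : ℤ) : ℝ) ≤ (K : ℝ) := h1.trans hK
      have h3 : m - i ≤ (K : ℤ) := by exact_mod_cast h2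
      push_cast at hm
      omega
    rcases Nat.lt_or_ge M (K + 1) with h | h
    · have h1 := hDpow n M
      have h2 : D ^ M ≤ D ^ (K + 1) := pow_le_pow_right₀ hD1 h.le
      have h3 : θ ^ (K + 1) ≤ θ ^ M := pow_le_pow_of_le_one hθ0.le hθ1.le h.le
      have h4 : (1:ℝ) ≤ (1 / θ ^ (K + 1)) * θ ^ M := by
        rw [one_div, inv_mul_eq_div, le_div_iff₀ (by positivity), one_mul]
        exact h3
      have h5 : D ^ M ≤ (C₀ + 1) * D ^ (K + 1) * ((1 / θ ^ (K + 1)) * θ ^ M) := by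
        calc D ^ M ≤ D ^ (K + 1) := h2
          _ = 1 * D ^ (K + 1) * 1 := by ring
          _ ≤ (C₀ + 1) * D ^ (K + 1) * ((1 / θ ^ (K + 1)) * θ ^ M) := by
            gcongr
            linarith
      calc φ (n + M) ≤ D ^ M * φ n := h1
        _ ≤ ((C₀ + 1) * D ^ (K + 1) * ((1 / θ ^ (K + 1)) * θ ^ M)) * φ n :=
          mul_le_mul_of_nonneg_right h5 (hφ n).le
        _ = _ := by ring
    · obtain ⟨N, rfl⟩ : ∃ N, M = (K + 1) + N := ⟨M - (K + 1), by omega⟩
      have h1 := hdecR (n + (K + 1 : ℕ)) hall N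
      have e : n + (((K + 1) + N : ℕ) : ℤ) = n + (K + 1 : ℕ) + N := by push_cast; ring
      rw [e]
      calc φ (n + (K + 1 : ℕ) + N) ≤ (C₀ + 1) * θ ^ N * φ (n + (K + 1 : ℕ)) := h1
        _ ≤ (C₀ + 1) * θ ^ N * (D ^ (K + 1) * φ n) :=
          mul_le_mul_of_nonneg_left (hDpow n (K + 1)) (by positivity)
        _ = _ := by
          rw [pow_add θ (K + 1) N]
          field_simp
  · intro n hn M
    have hall : ∀ m, m ≤ n → Ls m := by
      intro m hm
      by_contra hcon
      exact hn ⟨m, hm, hcover m hcon⟩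
    have h1 := hdecL n hall M
    refine h1.trans ?_
    have h2 : (1:ℝ) ≤ D ^ (K + 1) * (1 / θ ^ (K + 1)) := by nlinarith
    have hx : 0 ≤ (C₀ + 1) * θ ^ M * φ n := by
      have := hφ n
      positivity
    calc (C₀ + 1) * θ ^ M * φ n = (C₀ + 1) * θ ^ M * φ n * 1 := by ring
      _ ≤ (C₀ + 1) * θ ^ M * φ n * (D ^ (K + 1) * (1 / θ ^ (K + 1))) :=
        mul_le_mul_of_nonneg_left h2 hx
      _ = _ := by ring

end dich

/-! ### Necessity -/

section shift
variable {𝕜 : Type} [RCLike 𝕜] {S : Sp 𝕜} {w R : ℤ → 𝕜}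

lemma Good.one_mem (hS : Good S) {f : ℤ → 𝕜} (h : ∀ n m, f n ≠ 0 → f m ≠ 0 → n = m) :
    S.Mem f := by
  by_cases hf : ∃ n, f n ≠ 0
  · obtain ⟨n, hn⟩ := hf
    refine (hS.one (b := ‖f n‖) (fun m => ?_) h).1
    by_cases hm : f m = 0
    · rw [hm]; simp
    · rw [h m n hm hn]
  · push Not at hf
    exact (hS.one (b := 0) (fun m => by rw [hf m]; simp) h).1

lemma lt_inv_of {r X : ℝ} (hr : 0 < r) (h : r * X < 1) : X < r⁻¹ := by
  have h1 : 0 < r⁻¹ := inv_pos.2 hr
  calc X = r⁻¹ * (r * X) := by field_simp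
    _ < r⁻¹ * 1 := mul_lt_mul_of_pos_left h h1
    _ = r⁻¹ := mul_one _

lemma orbit_form (hR0 : ∀ n, R n ≠ 0) (hw0 : ∀ n, w n ≠ 0) (hR : ∀ n, R n = w (n + 1) * R (n + 1))
    {z : ℤ → ℤ → 𝕜} (hz : ∀ j, z (j + 1) = Bw w (z j)) :
    ∀ j n, z j n = R n * (z 0 (n + j) / R (n + j)) := by
  intro j
  induction j using Int.induction_on with
  | zero =>
    intro n
    rw [add_zero]
    field_simp [hR0 n]
  | succ i ih =>
    intro n
    rw [hz i]
    change w (n + 1) * z i (n + 1) = _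
    rw [ih (n + 1), ← mul_assoc, ← hR n]
    have e : n + 1 + (i : ℤ) = n + (i + 1) := by ring
    rw [e]
  | pred i ih =>
    intro n
    have h1 : z (-(i : ℤ)) (n - 1) = w n * z (-(i : ℤ) - 1) n := by
      have h2 := hz (-(i : ℤ) - 1)
      rw [sub_add_cancel] at h2
      rw [h2]
      change w (n - 1 + 1) * z (-(i : ℤ) - 1) (n - 1 + 1) = _
      rw [sub_add_cancel]
    have h3 := ih (n - 1)
    rw [h1] at h3
    have h4 := hR (n - 1)
    rw [sub_add_cancel] at h4
    rw [h4, mul_assoc] at h3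
    have h5 := mul_left_cancel₀ (hw0 n) h3
    rw [h5]
    have e : n - 1 + -(i : ℤ) = n + (-(i : ℤ) - 1) := by ring
    rw [e]

lemma packet (hS : Good S) (hR0 : ∀ n, R n ≠ 0) (hw0 : ∀ n, w n ≠ 0)
    (hR : ∀ n, R n = w (n + 1) * R (n + 1)) (hP : PSP S w) :
    ∃ δ' : ℝ, 0 < δ' ∧ ∀ G : ℤ → ℝ, (∃ k m : ℤ, ∀ n, (n ≤ k ∨ m ≤ n) → G n = 0) →
      (∀ n, ‖R n‖ * |G (n + 1) - G n| ≤ δ') →
      ∃ Z : 𝕜, (Z = 0 ∨ Tendsto (fun n => ‖R n‖) cofinite (𝓝 0)) ∧
        ∀ n, ‖R n‖ * ‖((G n : ℝ) : 𝕜) - Z‖ < 1 := by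
  obtain ⟨δ, hδ, h⟩ := hP 1 one_pos
  refine ⟨δ / 2, by positivity, ?_⟩
  rintro G ⟨k, m, hG⟩ hsl
  set q : ℕ := (m - k).toNat + 1 with hq
  have hqm : m - k < (q : ℤ) := by omega
  set x : ℤ → ℤ → 𝕜 := fun j n => if (q : ℤ) ∣ n + j then R n * ((G n : ℝ) : 𝕜) else 0 with hx
  have huniq : ∀ n n' : ℤ, |n - n'| < (q : ℤ) → (q : ℤ) ∣ n - n' → n = n' := by
    intro n n' h1 h2
    have := Int.eq_zero_of_abs_lt_dvd h2 h1
    omega
  have herr : ∀ j n, (Bw w (x j) - x (j + 1)) n =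
      if (q : ℤ) ∣ n + (j + 1) then R n * ((G (n + 1) - G n : ℝ) : 𝕜) else 0 := by
    intro j n
    change w (n + 1) * x j (n + 1) - x (j + 1) n = _
    simp only [hx]
    have e : n + 1 + j = n + (j + 1) := by ring
    rw [e]
    split_ifs
    · rw [← mul_assoc, ← hR n]; push_cast; ring
    · simp
  have hxm : ∀ j, S.Mem (x j) := by
    intro j
    refine hS.one_mem fun a b ha hb => ?_
    simp only [hx, ne_eq, ite_eq_right_iff, Classical.not_imp, mul_eq_zero, hR0, false_or,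
      RCLike.ofReal_eq_zero] at ha hb
    have ha2 : k < a ∧ a < m := by
      constructor <;> by_contra hcon <;> exact ha.2 (hG a (by omega))
    have hb2 : k < b ∧ b < m := by
      constructor <;> by_contra hcon <;> exact hb.2 (hG b (by omega))
    refine huniq a b (by rw [abs_lt]; omega) ?_
    have := dvd_sub ha.1 hb.1
    have e : a + j - (b + j) = a - b := by ring
    rwa [e] at this
  have hxe : ∀ j, S.N (Bw w (x j) - x (j + 1)) < δ := by
    intro j
    refine lt_of_le_of_lt (hS.one (b := δ / 2) (fun n => ?_) fun a b ha hb => ?_).2 (by linarith)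
    · rw [herr]
      split_ifs
      · rw [norm_mul, RCLike.norm_ofReal]; exact hsl n
      · rw [norm_zero]; positivity
    · rw [herr] at ha hb
      simp only [ne_eq, ite_eq_right_iff, Classical.not_imp, mul_eq_zero, hR0, false_or,
        RCLike.ofReal_eq_zero] at ha hb
      have ha2 : k ≤ a ∧ a < m := by
        constructor <;> by_contra hcon <;> apply ha.2 <;>
          rw [hG a (by omega), hG (a + 1) (by omega), sub_zero]
      have hb2 : k ≤ b ∧ b < m := by
        constructor <;> by_contra hcon <;> apply hb.2 <;>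
          rw [hG b (by omega), hG (b + 1) (by omega), sub_zero]
      refine huniq a b (by rw [abs_lt]; omega) ?_
      have := dvd_sub ha.1 hb.1
      have e : a + (j + 1) - (b + (j + 1)) = a - b := by ring
      rwa [e] at this
  have hxq : ∃ q : ℕ, 1 ≤ q ∧ ∀ j, x (j + q) = x j := by
    refine ⟨q, by omega, fun j => ?_⟩
    funext n
    simp only [hx]
    have e : n + (j + (q : ℤ)) = n + j + q := by ring
    rw [e]
    simp only [dvd_add_self_right]
  obtain ⟨z, hzm, hz, ⟨q', hq', hzq⟩, hxz⟩ := h x hxm hxe hxq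
  · refine ⟨z 0 0 / R 0, ?_, ?_⟩
    · by_cases hZ : z 0 0 / R 0 = 0
      · exact Or.inl hZ
      · right
        set Z := z 0 0 / R 0 with hZdef
        have hform := orbit_form hR0 hw0 hR hz
        have hper : Function.Periodic (fun i => z 0 i / R i) (q' : ℤ) := by
          intro i
          have h1 := hform (q' : ℤ) i
          have h2 := hform 0 i
          have h3 := hzq 0
          rw [zero_add] at h3
          rw [h3, h2] at h1
          have h4 := mul_left_cancel₀ (hR0 i) h1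
          rw [add_zero] at h4
          exact h4.symm
        have hbd : ∀ n, ‖R n‖ ≤ ‖Z‖⁻¹ * ∑ j ∈ Finset.range q', ‖z j n‖ := by
          intro n
          have hqpos : (0 : ℤ) < q' := by omega
          set t : ℕ := ((-n) % (q' : ℤ)).toNat with ht
          have ht1 : (t : ℤ) = (-n) % (q' : ℤ) := by
            rw [ht, Int.toNat_of_nonneg (Int.emod_nonneg _ hqpos.ne')]
          have ht2 : t < q' := by
            have := Int.emod_lt_of_pos (-n) hqpos
            omega
          have h1 : n + (t : ℤ) = (-(-n / (q' : ℤ))) * q' := by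
            have := Int.emod_add_mul_ediv (-n) (q' : ℤ)
            rw [ht1]
            linarith [this, mul_comm (q' : ℤ) (-n / (q' : ℤ))]
          have h2 : z t n = R n * Z := by
            rw [hform t n, h1]
            congr 1
            have := hper.int_mul_eq (-(-n / (q' : ℤ)))
            simpa [hZdef] using this
          have h3 : ‖R n‖ * ‖Z‖ ≤ ∑ j ∈ Finset.range q', ‖z j n‖ := by
            rw [← norm_mul, ← h2]
            exact Finset.single_le_sum (f := fun j : ℕ => ‖z j n‖) (fun _ _ => norm_nonneg _)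
              (Finset.mem_range.2 ht2)
          have hZp : 0 < ‖Z‖ := norm_pos_iff.2 hZ
          rw [inv_mul_eq_div, le_div_iff₀ hZp]
          exact h3
        have hlim : Tendsto (fun n => ‖Z‖⁻¹ * ∑ j ∈ Finset.range q', ‖z j n‖) cofinite (𝓝 0) := by
          have h1 : Tendsto (fun n => ∑ j ∈ Finset.range q', ‖z j n‖) cofinite
              (𝓝 (∑ _j ∈ Finset.range q', (0 : ℝ))) := by
            refine tendsto_finsetSum _ fun j _ => ?_
            have := (hS.tozero (hzm j)).norm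
            rwa [norm_zero] at this
          rw [Finset.sum_const_zero] at h1
          have h2 := h1.const_mul ‖Z‖⁻¹
          rwa [mul_zero] at h2
        exact squeeze_zero (fun n => norm_nonneg _) hbd hlim
    · intro n
      have h1 := hxz (-n)
      have h2 := hS.coord (hS.sub (hxm (-n)) (hzm (-n))).1 n
      have h3 : (x (-n) - z (-n)) n = R n * (((G n : ℝ) : 𝕜) - z 0 0 / R 0) := by
        rw [Pi.sub_apply, orbit_form hR0 hw0 hR hz (-n) n]
        simp only [hx, add_neg_cancel, dvd_zero, if_true]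
        ring
      rw [h3, norm_mul] at h2
      exact lt_of_le_of_lt h2 h1

/-- Necessity. -/
lemma dich_of_psp (hS : Good S) (hR0 : ∀ n, R n ≠ 0) (hw0 : ∀ n, w n ≠ 0)
    (hR : ∀ n, R n = w (n + 1) * R (n + 1)) {D : ℝ} (hD1 : 1 ≤ D)
    (hD : ∀ n, ‖w n‖ ≤ D) (hP : PSP S w) : Dich fun n => ‖R n‖⁻¹ := by
  obtain ⟨δ', hδ', h⟩ := packet hS hR0 hw0 hR hP
  have hr : ∀ n, 0 < ‖R n‖ := fun n => norm_pos_iff.2 (hR0 n)
  have hφ : ∀ n, 0 < ‖R n‖⁻¹ := fun n => inv_pos.2 (hr n)
  obtain ⟨Φ, hΦ⟩ := exists_Phi fun n => ‖R n‖⁻¹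
  have hmono := Phi_mono hφ hΦ
  have htent : ∀ k l m, k ≤ l → l ≤ m → ∃ G : ℤ → ℝ, (∃ Z : 𝕜, (Z = 0 ∨
      Tendsto (fun n => ‖R n‖) cofinite (𝓝 0)) ∧ ∀ n, ‖R n‖ * ‖((G n : ℝ) : 𝕜) - Z‖ < 1) ∧
      G l = δ' * min (Φ m - Φ l) (Φ l - Φ k) ∧ G k = 0 := by
    intro k l m hkl hlm
    set t := min (Φ m - Φ l) (Φ l - Φ k) with ht
    have ht0 : 0 ≤ t := le_min (by linarith [hmono hlm]) (by linarith [hmono hkl])
    have hzero : ∀ n, (n ≤ k ∨ m ≤ n) → δ' * max (t - |Φ n - Φ l|) 0 = 0 := by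
      intro n hn
      have : t ≤ |Φ n - Φ l| := by
        rcases hn with hn | hn
        · rw [abs_sub_comm]
          refine le_trans ?_ (le_abs_self _)
          have := min_le_right (Φ m - Φ l) (Φ l - Φ k)
          linarith [hmono hn]
        · refine le_trans ?_ (le_abs_self _)
          have := min_le_left (Φ m - Φ l) (Φ l - Φ k)
          linarith [hmono hn]
      rw [max_eq_right (by linarith), mul_zero]
    refine ⟨fun n => δ' * max (t - |Φ n - Φ l|) 0, h _ ⟨k, m, hzero⟩ ?_, ?_, hzero k (Or.inl le_rfl)⟩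
    · intro n
      have h1 : |max (t - |Φ (n + 1) - Φ l|) 0 - max (t - |Φ n - Φ l|) 0| ≤ ‖R n‖⁻¹ := by
        refine (abs_max_sub_max_le_abs _ _ _).trans ?_
        have h2 : t - |Φ (n + 1) - Φ l| - (t - |Φ n - Φ l|) = |Φ n - Φ l| - |Φ (n + 1) - Φ l| := by
          ring
        rw [h2]
        refine (abs_abs_sub_abs_le_abs_sub _ _).trans ?_
        have h3 : Φ n - Φ l - (Φ (n + 1) - Φ l) = -‖R n‖⁻¹ := by rw [hΦ n]; ring
        rw [h3, abs_neg, abs_of_pos (hφ n)]
      rw [← mul_sub, abs_mul, abs_of_pos hδ']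
      calc ‖R n‖ * (δ' * |max (t - |Φ (n + 1) - Φ l|) 0 - max (t - |Φ n - Φ l|) 0|)
          ≤ ‖R n‖ * (δ' * ‖R n‖⁻¹) := by gcongr
        _ = δ' := by field_simp [(hr n).ne']
    · simp only [sub_self, abs_zero, sub_zero]
      rw [max_eq_left ht0]
  by_cases hlim : Tendsto (fun n => ‖R n‖) cofinite (𝓝 0)
  · have hinf : Tendsto (fun n => ‖R n‖⁻¹) cofinite atTop := by
      refine Tendsto.inv_tendsto_nhdsGT_zero ?_
      rw [tendsto_nhdsWithin_iff]
      exact ⟨hlim, Eventually.of_forall hr⟩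
    refine dich_ridge hφ hΦ (C₀ := δ'⁻¹) (inv_pos.2 hδ') hinf ?_
    intro k m hkm
    obtain ⟨a, ha⟩ := hinf.exists_forall_le
    obtain ⟨K, hK⟩ := exists_nat_ge ((Φ m - Φ k) / ‖R a‖⁻¹)
    rw [div_le_iff₀ (hφ a)] at hK
    have h1 := Phi_ge hΦ m K (b := ‖R a‖⁻¹) fun n _ _ => ha n
    obtain ⟨G, ⟨Z, -, hZ⟩, hG1, hG2⟩ := htent k m (m + K) hkm (by omega)
    rw [min_eq_right (by linarith)] at hG1
    have h2 := lt_inv_of (hr m) (hZ m)
    have h3 := lt_inv_of (hr k) (hZ k)
    rw [hG1] at h2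
    rw [hG2] at h3
    have h4 : ‖((δ' * (Φ m - Φ k) : ℝ) : 𝕜)‖ ≤ ‖R m‖⁻¹ + ‖R k‖⁻¹ := by
      have e : ((δ' * (Φ m - Φ k) : ℝ) : 𝕜) =
          (((δ' * (Φ m - Φ k) : ℝ) : 𝕜) - Z) - (((0 : ℝ) : 𝕜) - Z) := by
        simp
      rw [e]
      exact (norm_sub_le _ _).trans (by linarith)
    rw [RCLike.norm_ofReal] at h4
    have h5 := (le_abs_self _).trans h4
    rw [inv_mul_eq_div, le_div_iff₀ hδ']
    linarith
  · refine dich_wings hφ hΦ (C₀ := max 1 δ'⁻¹) (le_max_left _ _) hD1 ?_ ?_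
    · intro n
      have h1 : ‖R n‖ = ‖w (n + 1)‖ * ‖R (n + 1)‖ := by rw [← norm_mul, ← hR n]
      rw [← div_eq_mul_inv, le_div_iff₀ (hr n), h1]
      have h2 := hr (n + 1)
      calc ‖R (n + 1)‖⁻¹ * (‖w (n + 1)‖ * ‖R (n + 1)‖) = ‖w (n + 1)‖ := by field_simp
        _ ≤ D := hD _
    · intro k l m hkl hlm
      obtain ⟨G, ⟨Z, hZ0, hZ⟩, hG1, -⟩ := htent k l m hkl hlm
      rcases hZ0 with hZ0 | hZ0
      · have h2 := lt_inv_of (hr l) (hZ l)
        rw [hZ0, sub_zero, RCLike.norm_ofReal, hG1] at h2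
        have h3 := (le_abs_self _).trans h2.le
        have h4 : min (Φ m - Φ l) (Φ l - Φ k) ≤ δ'⁻¹ * ‖R l‖⁻¹ := by
          rw [inv_mul_eq_div, le_div_iff₀ hδ']
          linarith
        refine h4.trans ?_
        exact mul_le_mul_of_nonneg_right (le_max_right _ _) (hφ l).le
      · exact absurd hZ0 hlim

/-! ### Sufficiency -/

lemma r_of_phi {a b c : ℝ} (ha : 0 < a) (hb : 0 < b) (h : b⁻¹ ≤ c * a⁻¹) : a ≤ c * b := by
  have h1 := mul_le_mul_of_nonneg_left h (mul_pos ha hb).le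
  have e1 : a * b * b⁻¹ = a := by field_simp
  have e2 : a * b * (c * a⁻¹) = c * b := by field_simp
  rwa [e1, e2] at h1

/-- the basic series -/
lemma series_bound (hS : Good S) (hR0 : ∀ n, R n ≠ 0) {C θ δ : ℝ} (hC : 0 ≤ C) (h0 : 0 ≤ θ)
    (h1 : θ < 1) (s : ℤ) (P : ℕ → ℤ → Prop) [∀ k n, Decidable (P k n)]
    (hP : ∀ k n, P k n → ‖R n‖ ≤ C * θ ^ k * ‖R (n + s * k)‖) (E : ℤ → ℤ → 𝕜)
    (hE : ∀ j, S.Mem fun n => R n * E j n) (hEN : ∀ j, S.N (fun n => R n * E j n) ≤ δ) (j : ℤ) :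
    S.Mem (fun n => R n * ∑' k : ℕ, if P k n then E (j - s * k) (n + s * k) else 0) ∧
    S.N (fun n => R n * ∑' k : ℕ, if P k n then E (j - s * k) (n + s * k) else 0) ≤
      C * δ / (1 - θ) ∧
    ∀ n, Summable fun k : ℕ => if P k n then E (j - s * k) (n + s * k) else 0 := by
  set F : ℕ → ℤ → 𝕜 := fun k n => R n * if P k n then E (j - s * k) (n + s * k) else 0 with hF
  have hk : ∀ k : ℕ, S.Mem (F k) ∧ S.N (F k) ≤ (C * δ) * θ ^ k := by
    intro k
    have hsh := hS.shift (s * k) (hE (j - s * k))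
    have hle : ∀ n, ‖F k n‖ ≤ (C * θ ^ k) *
        ‖(fun n => R (n + s * k) * E (j - s * k) (n + s * k)) n‖ := by
      intro n
      simp only [hF]
      split_ifs with hp
      · rw [norm_mul, norm_mul, ← mul_assoc]
        exact mul_le_mul_of_nonneg_right (hP k n hp) (norm_nonneg _)
      · rw [mul_zero, norm_zero]
        positivity
    have := hS.solid (by positivity) hsh.1 hle
    refine ⟨this.1, this.2.trans ?_⟩
    calc C * θ ^ k * S.N (fun n => R (n + s * k) * E (j - s * k) (n + s * k))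
        ≤ C * θ ^ k * δ := mul_le_mul_of_nonneg_left (hsh.2.trans (hEN _)) (by positivity)
      _ = _ := by ring
  have hser := hS.series h0 h1 (fun k => (hk k).1) (fun k => (hk k).2)
  have e : (fun n => ∑' k, F k n) =
      fun n => R n * ∑' k : ℕ, if P k n then E (j - s * k) (n + s * k) else 0 := by
    funext n
    simp only [hF]
    exact tsum_mul_left
  rw [e] at hser
  refine ⟨hser.1, hser.2, fun n => ?_⟩
  have hsum : Summable fun k => F k n := by
    refine Summable.of_norm_bounded (g := fun k => (C * δ) * θ ^ k)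
      ((summable_geometric_of_lt_one h0 h1).mul_left _) fun k => ?_
    exact (hS.coord (hk k).1 n).trans (hk k).2
  simp only [hF] at hsum
  exact (summable_mul_left_iff (hR0 n)).1 hsum

/-- the wing estimate -/
lemma wing_bound (hS : Good S) (hR0 : ∀ n, R n ≠ 0) {C θ δ B : ℝ} (hC : 0 ≤ C) (h0 : 0 ≤ θ)
    (h1 : θ < 1) (s : ℤ) (A : Set ℤ)
    (hA : ∀ n ∈ A, ∀ k : ℕ, ‖R n‖ ≤ C * θ ^ k * ‖R (n + s * k)‖) (y : ℤ → ℤ → 𝕜)
    (hy : ∀ j, S.Mem fun n => R n * y j n) (hB : ∀ j, S.N (fun n => R n * y j n) ≤ B)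
    (hE : ∀ j, S.Mem fun n => R n * (y j n - y (j - s) (n + s)))
    (hEN : ∀ j, S.N (fun n => R n * (y j n - y (j - s) (n + s))) ≤ δ) (j : ℤ) (g : ℤ → 𝕜)
    (hg : ∀ n, (n ∈ A → g n = R n * y j n) ∧ (n ∉ A → g n = 0)) :
    S.Mem g ∧ S.N g ≤ C * δ / (1 - θ) := by
  classical
  have hb := series_bound hS hR0 hC h0 h1 s (fun _ n => n ∈ A) (fun k n hn => hA n hn k)
    (fun j n => y j n - y (j - s) (n + s)) hE hEN j
  have e : g = fun n => R n * ∑' k : ℕ, if n ∈ A then
      y (j - s * k) (n + s * k) - y (j - s * k - s) (n + s * k + s) else 0 := by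
    funext n
    by_cases hn : n ∈ A
    · rw [(hg n).1 hn]
      congr 1
      have hsum := hb.2.2 n
      simp only [hn, if_true] at hsum ⊢
      have h2 := hsum.hasSum.tendsto_sum_nat
      have h3 : ∀ K : ℕ, ∑ k ∈ Finset.range K,
          (y (j - s * k) (n + s * k) - y (j - s * k - s) (n + s * k + s)) =
          y j n - y (j - s * K) (n + s * K) := by
        intro K
        have h4 := Finset.sum_range_sub' (fun k : ℕ => y (j - s * k) (n + s * k)) K
        simp only [Nat.cast_zero, mul_zero, sub_zero, add_zero] at h4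
        rw [← h4]
        refine Finset.sum_congr rfl fun k _ => ?_
        have e1 : j - s * (k : ℤ) - s = j - s * ((k + 1 : ℕ) : ℤ) := by push_cast; ring
        have e2 : n + s * (k : ℤ) + s = n + s * ((k + 1 : ℕ) : ℤ) := by push_cast; ring
        rw [e1, e2]
      have h5 : Tendsto (fun K : ℕ => y (j - s * K) (n + s * K)) atTop (𝓝 0) := by
        have hbd : ∀ K : ℕ, ‖y (j - s * K) (n + s * K)‖ ≤ (‖R n‖⁻¹ * C * B) * θ ^ K := by
          intro K
          have h6 := hS.coord (hy (j - s * K)) (n + s * K)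
          have h7 : ‖R (n + s * K)‖ * ‖y (j - s * K) (n + s * K)‖ ≤ B := by
            rw [← norm_mul]
            exact h6.trans (hB _)
          have h8 := hA n hn K
          have hr := norm_pos_iff.2 (hR0 n)
          have h9 : ‖R n‖ * ‖y (j - s * K) (n + s * K)‖ ≤ C * θ ^ K * B := by
            calc ‖R n‖ * ‖y (j - s * K) (n + s * K)‖
                ≤ C * θ ^ K * ‖R (n + s * K)‖ * ‖y (j - s * K) (n + s * K)‖ :=
                  mul_le_mul_of_nonneg_right h8 (norm_nonneg _)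
              _ = C * θ ^ K * (‖R (n + s * K)‖ * ‖y (j - s * K) (n + s * K)‖) := by ring
              _ ≤ C * θ ^ K * B := mul_le_mul_of_nonneg_left h7 (by positivity)
          calc ‖y (j - s * K) (n + s * K)‖
              = ‖R n‖⁻¹ * (‖R n‖ * ‖y (j - s * K) (n + s * K)‖) := by field_simp
            _ ≤ ‖R n‖⁻¹ * (C * θ ^ K * B) := mul_le_mul_of_nonneg_left h9 (by positivity)
            _ = _ := by ring
        refine squeeze_zero_norm hbd ?_
        have := (tendsto_pow_atTop_nhds_zero_of_lt_one h0 h1).const_mul (‖R n‖⁻¹ * C * B)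
        rwa [mul_zero] at this
      have h6 : Tendsto (fun K : ℕ => y j n - y (j - s * K) (n + s * K)) atTop (𝓝 (y j n)) := by
        have := (tendsto_const_nhds (x := y j n)).sub h5
        rwa [sub_zero] at this
      exact tendsto_nhds_unique h6 (h2.congr h3)
    · rw [(hg n).2 hn]
      simp [hn]
  rw [e]
  exact ⟨hb.1, hb.2.1⟩

/-- the corrections of the ridge case -/
lemma ridge_corr (hS : Good S) (hR0 : ∀ n, R n ≠ 0) {C θ δ : ℝ} (hC : 0 ≤ C) (h0 : 0 ≤ θ)
    (h1 : θ < 1) (s : ℤ) (A : Set ℤ)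
    (hA : ∀ n, ∀ k : ℕ, n + s * k ∈ A → ‖R n‖ ≤ C * θ ^ k * ‖R (n + s * k)‖) (E : ℤ → ℤ → 𝕜)
    (hE : ∀ j, S.Mem fun n => R n * E j n) (hEN : ∀ j, S.N (fun n => R n * E j n) ≤ δ)
    (q : ℤ) (hq : ∀ j, E (j + q) = E j) :
    ∃ η : ℤ → ℤ → 𝕜, (∀ j, S.Mem fun n => R n * η j n) ∧
      (∀ j, S.N (fun n => R n * η j n) ≤ C * δ / (1 - θ)) ∧ (∀ j, η (j + q) = η j) ∧
      (∀ j n, n ∈ A → η j n - η (j - s) (n + s) = E j n) ∧
      (∀ j n, n ∉ A → η j n - η (j - s) (n + s) = 0) := by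
  classical
  have hb := series_bound hS hR0 hC h0 h1 s (fun k n => n + s * k ∈ A) (fun k n hn => hA n k hn)
    E hE hEN
  have hmain : ∀ j n, (∑' k : ℕ, if n + s * k ∈ A then E (j - s * k) (n + s * k) else 0) -
      (∑' k : ℕ, if n + s + s * k ∈ A then E (j - s - s * k) (n + s + s * k) else 0) =
      if n ∈ A then E j n else 0 := by
    intro j n
    rw [((hb j).2.2 n).tsum_eq_zero_add]
    simp only [Nat.cast_zero, mul_zero, add_zero, sub_zero]
    rw [add_sub_assoc, add_eq_left, sub_eq_zero]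
    refine tsum_congr fun k => ?_
    have e1 : j - s * ((k + 1 : ℕ) : ℤ) = j - s - s * k := by push_cast; ring
    have e2 : n + s * ((k + 1 : ℕ) : ℤ) = n + s + s * k := by push_cast; ring
    rw [e1, e2]
  refine ⟨fun j n => ∑' k : ℕ, if n + s * k ∈ A then E (j - s * k) (n + s * k) else 0,
    fun j => (hb j).1, fun j => (hb j).2.1, ?_, ?_, ?_⟩
  · intro j
    funext n
    refine tsum_congr fun k => ?_
    have e : j + q - s * (k : ℤ) = j - s * k + q := by ring
    rw [e, hq]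
  · intro j n hn
    have := hmain j n
    rwa [if_pos hn] at this
  · intro j n hn
    have := hmain j n
    rwa [if_neg hn] at this

/-- Sufficiency. -/
lemma psp_of_dich (hS : Good S) (hR0 : ∀ n, R n ≠ 0) (hw0 : ∀ n, w n ≠ 0)
    (hR : ∀ n, R n = w (n + 1) * R (n + 1)) {D : ℝ} (hD1 : 1 ≤ D)
    (hD : ∀ n, ‖w n‖ ≤ D) (hD' : ∀ n, ‖w n‖⁻¹ ≤ D) (h : Dich fun n => ‖R n‖⁻¹) : PSP S w := by
  classical
  obtain ⟨C, θ, hC, h0, h1, hdich⟩ := h
  have hD0 : 0 ≤ D := by linarith
  have hr : ∀ n, 0 < ‖R n‖ := fun n => norm_pos_iff.2 (hR0 n)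
  have h1θ : 0 < 1 - θ := by linarith
  intro ε hε
  set κ : ℝ := 2 * (C * D) / (1 - θ) + 1 with hκ
  have hκ0 : 0 < κ := by positivity
  refine ⟨ε / κ, by positivity, ?_⟩
  set δ := ε / κ with hδ
  have hδ0 : 0 < δ := by positivity
  rintro x hxm hxe ⟨q, hq, hxq⟩
  have hδε : 2 * (C * (D * δ) / (1 - θ)) < ε := by
    have e1 : 2 * (C * (D * δ) / (1 - θ)) = (κ - 1) * δ := by rw [hκ]; ring
    have e2 : κ * δ = ε := by rw [hδ]; field_simp
    rw [e1]; nlinarith
  -- the normalised coordinates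
  set y : ℤ → ℤ → 𝕜 := fun j n => x j n / R n with hy
  have hyx : ∀ j n, R n * y j n = x j n := fun j n => by
    simp only [hy]; field_simp [hR0 n]
  have hyf : ∀ j, (fun n => R n * y j n) = x j := fun j => funext fun n => hyx j n
  have hem : ∀ j, S.Mem (Bw w (x j) - x (j + 1)) := by
    intro j
    refine (hS.sub ?_ (hxm (j + 1))).1
    refine (hS.solid (c := D) hD0 (hS.shift 1 (hxm j)).1 fun n => ?_).1
    simp only [Bw, norm_mul]
    exact mul_le_mul_of_nonneg_right (hD _) (norm_nonneg _)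
  have hE1 : ∀ j, S.Mem (fun n => R n * (y j n - y (j - 1) (n + 1))) ∧
      S.N (fun n => R n * (y j n - y (j - 1) (n + 1))) ≤ D * δ := by
    intro j
    have hs := hS.solid (f := fun n => R n * (y j n - y (j - 1) (n + 1))) (c := D) hD0
      (hem (j - 1)) fun n => ?_
    · exact ⟨hs.1, hs.2.trans (mul_le_mul_of_nonneg_left (hxe _).le hD0)⟩
    · have e : R n * (y j n - y (j - 1) (n + 1)) = -(Bw w (x (j - 1)) - x (j - 1 + 1)) n := by
        rw [mul_sub, hyx, sub_add_cancel]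
        have e1 : R n * y (j - 1) (n + 1) = w (n + 1) * x (j - 1) (n + 1) := by
          rw [hR n, mul_assoc, hyx]
        rw [e1]
        simp only [Pi.sub_apply, Bw]
        ring
      rw [e, norm_neg]
      nlinarith [norm_nonneg ((Bw w (x (j - 1)) - x (j - 1 + 1)) n)]
  have hE2 : ∀ j, S.Mem (fun n => R n * (y j n - y (j - -1) (n + -1))) ∧
      S.N (fun n => R n * (y j n - y (j - -1) (n + -1))) ≤ D * δ := by
    intro j
    have hsh := hS.shift (-1) (hem j)
    have hs := hS.solid (f := fun n => R n * (y j n - y (j - -1) (n + -1))) (c := D) hD0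
      hsh.1 fun n => ?_
    · exact ⟨hs.1, hs.2.trans (mul_le_mul_of_nonneg_left (hsh.2.trans (hxe _).le) hD0)⟩
    · have e : R n * (y j n - y (j - -1) (n + -1)) =
          (w n)⁻¹ * (Bw w (x j) - x (j + 1)) (n + -1) := by
        have e0 : R (n + -1) = w n * R n := by
          have := hR (n + -1)
          rwa [neg_add_cancel_right] at this
        have e1 : R n * y (j - -1) (n + -1) = (w n)⁻¹ * x (j + 1) (n + -1) := by
          rw [← hyx (j + 1) (n + -1), e0, sub_neg_eq_add]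
          field_simp [hw0 n]
        rw [mul_sub, hyx, e1]
        simp only [Pi.sub_apply, Bw, neg_add_cancel_right]
        field_simp [hw0 n]
      rw [e, norm_mul, norm_inv]
      exact mul_le_mul_of_nonneg_right (hD' n) (norm_nonneg _)
  rcases hdich with ⟨U, hU1, hU2⟩ | ⟨a, ha1, ha2⟩
  · -- the two wings
    have hxper : Function.Periodic x (q : ℤ) := hxq
    have hN0 : ∀ j, 0 ≤ S.N (x j) := fun j => (norm_nonneg _).trans (hS.coord (hxm j) 0)
    have hB : ∀ j, S.N (x j) ≤ ∑ i ∈ Finset.range q, S.N (x i) := by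
      intro j
      have hqpos : (0 : ℤ) < q := by omega
      set t : ℕ := (j % (q : ℤ)).toNat with ht
      have ht1 : (t : ℤ) = j % (q : ℤ) := by
        rw [ht, Int.toNat_of_nonneg (Int.emod_nonneg _ hqpos.ne')]
      have ht2 : t < q := by
        have := Int.emod_lt_of_pos j hqpos
        omega
      have h2 : j = t + (j / (q : ℤ)) * q := by
        have := Int.emod_add_mul_ediv j (q : ℤ)
        rw [ht1]
        linarith [this, mul_comm (q : ℤ) (j / (q : ℤ))]
      have h3 : x j = x t := by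
        have h4 := (hxper.int_mul (j / (q : ℤ))) t
        have e : (t : ℤ) + ((j / (q : ℤ) : ℤ) : ℤ) * q = j := h2.symm
        simp only [Int.cast_id] at h4
        rw [e] at h4
        exact h4
      rw [h3]
      exact Finset.single_le_sum (f := fun i : ℕ => S.N (x i)) (fun i _ => hN0 i)
        (Finset.mem_range.2 ht2)
    have hw1 := fun j => wing_bound hS hR0 hC h0 h1 1 U (fun n hn k => by
        have := r_of_phi (hr n) (hr _) (hU1 n hn k)
        rwa [one_mul]) y (fun j => by rw [hyf]; exact hxm j) (fun j => by rw [hyf]; exact hB j)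
      (fun j => (hE1 j).1) (fun j => (hE1 j).2) j (fun n => if n ∈ U then x j n else 0)
      (fun n => ⟨fun hn => by rw [if_pos hn, hyx], fun hn => by rw [if_neg hn]⟩)
    have hw2 := fun j => wing_bound hS hR0 hC h0 h1 (-1) Uᶜ (fun n hn k => by
        have := r_of_phi (hr n) (hr _) (hU2 n hn k)
        have e : n + -1 * (k : ℤ) = n - k := by ring
        rwa [e]) y (fun j => by rw [hyf]; exact hxm j) (fun j => by rw [hyf]; exact hB j)
      (fun j => (hE2 j).1) (fun j => (hE2 j).2) j (fun n => if n ∈ Uᶜ then x j n else 0)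
      (fun n => ⟨fun hn => by rw [if_pos hn, hyx], fun hn => by rw [if_neg hn]⟩)
    refine ⟨fun _ => 0, fun _ => hS.one_mem (fun n m hn _ => absurd rfl hn), ?_,
      ⟨1, le_rfl, fun _ => rfl⟩, ?_⟩
    · intro j
      funext n
      simp [Bw]
    · intro j
      rw [sub_zero]
      have e : x j = (fun n => if n ∈ U then x j n else 0) +
          (fun n => if n ∈ Uᶜ then x j n else 0) := by
        funext n
        by_cases hn : n ∈ U <;> simp [hn]
      have h5 := (hS.add (hw1 j).1 (hw2 j).1).2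
      rw [← e] at h5
      linarith [(hw1 j).2, (hw2 j).2]
  · -- the ridge
    obtain ⟨η, hη1, hη2, hη3, hη4, hη5⟩ := ridge_corr hS hR0 hC h0 h1 1 {n | n < a} (fun n k hn => by
        have hn' : n + 1 * (k : ℤ) ≤ a := le_of_lt hn
        have h2 := ha2 _ hn' k
        have e : n + 1 * (k : ℤ) - k = n := by ring
        rw [e] at h2
        exact r_of_phi (hr n) (hr _) h2) (fun j n => y j n - y (j - 1) (n + 1))
      (fun j => (hE1 j).1) (fun j => (hE1 j).2) q (fun j => by
        funext n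
        have e1 : y (j + q) = y j := by funext n; simp only [hy, hxq]
        have e2 : y (j + q - 1) = y (j - 1) := by
          have e3 : j + (q : ℤ) - 1 = (j - 1) + q := by ring
          funext n; simp only [hy, e3, hxq]
        simp only [e1, e2])
    obtain ⟨ζ, hζ1, hζ2, hζ3, hζ4, hζ5⟩ := ridge_corr hS hR0 hC h0 h1 (-1) {n | a < n}
      (fun n k hn => by
        have hn' : a ≤ n + -1 * (k : ℤ) := le_of_lt hn
        have h2 := ha1 _ hn' k
        have e : n + -1 * (k : ℤ) + k = n := by ring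
        rw [e] at h2
        exact r_of_phi (hr n) (hr _) h2) (fun j n => y j n - y (j - -1) (n + -1))
      (fun j => (hE2 j).1) (fun j => (hE2 j).2) q (fun j => by
        funext n
        have e1 : y (j + q) = y j := by funext n; simp only [hy, hxq]
        have e2 : y (j + q - -1) = y (j - -1) := by
          have e3 : j + (q : ℤ) - -1 = (j - -1) + q := by ring
          funext n; simp only [hy, e3, hxq]
        simp only [e1, e2])
    have hform : ∀ j, (fun n => R n * (y j n - η j n - ζ j n)) =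
        x j - (fun n => R n * η j n) - (fun n => R n * ζ j n) := by
      intro j
      funext n
      simp only [Pi.sub_apply]
      rw [← hyx j n]; ring
    refine ⟨fun j n => R n * (y j n - η j n - ζ j n), ?_, ?_, ⟨q, hq, ?_⟩, ?_⟩
    · intro j
      change S.Mem (fun n => R n * (y j n - η j n - ζ j n))
      rw [hform j]
      exact (hS.sub (hS.sub (hxm j) (hη1 j)).1 (hζ1 j)).1
    · intro j
      funext n
      simp only [Bw]
      rw [← mul_assoc, ← hR n]
      congr 1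
      have ej : j + 1 - 1 = j := by ring
      have en : n + 1 + -1 = n := by ring
      have ej2 : j - -1 = j + 1 := by ring
      rcases lt_or_ge n a with hn | hn
      · have h2 := hη4 (j + 1) n hn
        have h3 := hζ5 j (n + 1) (by simp only [Set.mem_ofPred_eq]; omega)
        rw [ej] at h2
        rw [en, ej2] at h3
        linear_combination -h2 + h3
      · have h2 := hη5 (j + 1) n (by simp only [Set.mem_ofPred_eq]; omega)
        have h3 := hζ4 j (n + 1) (by simp only [Set.mem_ofPred_eq]; omega)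
        rw [ej] at h2
        rw [en, ej2] at h3
        linear_combination -h2 + h3
    · intro j
      funext n
      simp only [hη3, hζ3, hy, hxq]
    · intro j
      change S.N (x j - fun n => R n * (y j n - η j n - ζ j n)) < ε
      rw [hform j]
      have e : x j - (x j - (fun n => R n * η j n) - (fun n => R n * ζ j n)) =
          (fun n => R n * η j n) + (fun n => R n * ζ j n) := by
        ring
      rw [e]
      have h5 := (hS.add (hη1 j) (hζ1 j)).2
      linarith [hη2 j, hζ2 j]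

end shift

/-- Let `𝕜 = ℝ` or `ℂ`, `1 ≤ p < ∞` and `w` a bounded weight bounded away from `0`. The bilateral
weighted backward shift `B_w` has the periodic shadowing property on `ℓ_p(ℤ)` if and only if it has
it on `c_0(ℤ)`. -/
theorem result : ∀ (𝕜 : Type) [RCLike 𝕜] (p : ℝ), 1 ≤ p → ∀ w : ℤ → 𝕜,
    (∃ C, ∀ n, ‖w n‖ ≤ C) → (∃ c, 0 < c ∧ ∀ n, c ≤ ‖w n‖) →
    (PSP (ellp 𝕜 p) w ↔ PSP (cZero 𝕜) w) := by
  intro 𝕜 _ p hp w hC hc
  obtain ⟨C, hC⟩ := hC
  obtain ⟨c, hc0, hc⟩ := hc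
  have hw0 : ∀ n, w n ≠ 0 := fun n => norm_pos_iff.1 (lt_of_lt_of_le hc0 (hc n))
  obtain ⟨R, hR0, hR⟩ := exists_R w hw0
  set D := max (max C c⁻¹) 1 with hD
  have hD1 : 1 ≤ D := le_max_right _ _
  have hDw : ∀ n, ‖w n‖ ≤ D := fun n => (hC n).trans ((le_max_left _ _).trans (le_max_left _ _))
  have hDw' : ∀ n, ‖w n‖⁻¹ ≤ D := fun n =>
    (inv_anti₀ hc0 (hc n)).trans ((le_max_right _ _).trans (le_max_left _ _))
  have h1 := good_ellp (𝕜 := 𝕜) hp
  have h2 := good_cZero (𝕜 := 𝕜)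
  exact ⟨fun h => psp_of_dich h2 hR0 hw0 hR hD1 hDw hDw' (dich_of_psp h1 hR0 hw0 hR hD1 hDw h),
    fun h => psp_of_dich h1 hR0 hw0 hR hD1 hDw hDw' (dich_of_psp h2 hR0 hw0 hR hD1 hDw h)⟩

end Pool.Agent.Results.MP_2e038a_an.PeriodicShadowing
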